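import Pool.Agent.AFX.StmtsB
import Pool.Agent.Helper77_AFX.FRE

/-!
# AFX, row FRS: one companion is enough, over a subset
-/

open FirstOrder FirstOrder.Language Cardinal Set

universe u

namespace Pool.Agent.AFX.H58

open Pool.Agent.AEC Pool.Agent.AFX

theorem frs (h1 : W2gStmt.{u}) : FrsStmt.{u} := by
  intro L κ K l χ hκχ hl hlχ hcat M N e hN A hA ι B f hB hcpt
  rcases isEmpty_or_nonempty ι with hι | ⟨⟨j0⟩⟩
  · exact ⟨M, fun j => isEmptyElim j, fun j => isEmptyElim j⟩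
  have hM : #M.α ≤ l := (Cardinal.mk_le_of_injective (f j0).injective).trans (hB j0)
  have hχl : χ ≤ l := (H77.fre_lt hl hlχ).le
  have hκl : κ ≤ l := hκχ.trans hχl
  obtain ⟨X, hX⟩ := Cardinal.le_mk_iff_exists_set.1 hN
  obtain ⟨S, hS1, hS2, hS3⟩ := K.ls N.prop (X ∪ Set.range e)
  have hSle : #S ≤ l := by
    refine hS3.trans (Cardinal.add_le_of_le hl ?_ hκl)
    refine (Cardinal.mk_union_le _ _).trans (Cardinal.add_le_of_le hl hX.le ?_)
    exact Cardinal.mk_range_le.trans hM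
  have hSge : l ≤ #S := by
    rw [← hX]
    exact Cardinal.mk_le_mk_of_subset (fun x hx => hS1 (Or.inl hx))
  have hSl : #(AEC.sub N S hS2).α = l := le_antisymm hSle hSge
  obtain ⟨e', he'⟩ := AEC.Hom.exists_factor e (AEC.subHom N S hS2)
    (fun a => ⟨(⟨e a, hS1 (Or.inr ⟨a, rfl⟩)⟩ : S), rfl⟩)
  have key : ∀ j, ∃ (C : K.Mod) (g' : K.Hom (AEC.sub N S hS2) C) (h' : K.Hom (B j) C),
      #C.α = l ∧ ∀ x, g' (e' x) = h' (f j x) := by
    intro j
    obtain ⟨Z, g, h, hgh⟩ := hcpt j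
    obtain ⟨T, hT1, hT2, hT3⟩ := K.ls Z.prop
      (Set.range (g.comp (AEC.subHom N S hS2)) ∪ Set.range h)
    obtain ⟨g', hg'⟩ := AEC.Hom.exists_factor (g.comp (AEC.subHom N S hS2))
      (AEC.subHom Z T hT2)
      (fun a => ⟨(⟨g.comp (AEC.subHom N S hS2) a, hT1 (Or.inl ⟨a, rfl⟩)⟩ : T), rfl⟩)
    obtain ⟨h', hh'⟩ := AEC.Hom.exists_factor h (AEC.subHom Z T hT2)
      (fun a => ⟨(⟨h a, hT1 (Or.inr ⟨a, rfl⟩)⟩ : T), rfl⟩)
    refine ⟨AEC.sub Z T hT2, g', h', le_antisymm ?_ ?_, ?_⟩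
    · refine hT3.trans (Cardinal.add_le_of_le hl ?_ hκl)
      refine (Cardinal.mk_union_le _ _).trans (Cardinal.add_le_of_le hl ?_ ?_)
      · exact Cardinal.mk_range_le.trans hSl.le
      · exact Cardinal.mk_range_le.trans (hB j)
    · rw [← hSl]
      exact Cardinal.mk_le_of_injective g'.injective
    · intro x
      apply (AEC.subHom Z T hT2).injective
      rw [hg', hh', AEC.Hom.comp_apply, he']
      exact hgh x
  choose C g' h' hC hgh using key
  obtain ⟨Z, w, hw⟩ := h1 L κ K l χ hκχ hl hlχ hcat (AEC.sub N S hS2) hSl (e' '' A)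
    (Cardinal.mk_image_le.trans hA) ι C g' hC
  refine ⟨Z, fun j => (w j).comp (h' j), fun i j x hx => ?_⟩
  rw [AEC.Hom.comp_apply, AEC.Hom.comp_apply, ← hgh i, ← hgh j]
  exact hw i j _ ⟨x, hx, rfl⟩

end Pool.Agent.AFX.H58
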