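import Pool.Agent.Helper58_AFX.FRS
import Pool.Agent.Helper94_AFX.LFM

/-!
# AFX: the final statement

For every `κ` there is `μ` such that the following holds for every AEC `K` with `LS(K) ≤ κ ≤ χ`
which is categorical in an infinite cardinal `l = l ^ χ`: if every extension `N` of `M` [of
cardinality `< l`] has a proper free extension, then every family of extensions of `M` [of
cardinalities `≤ l`] can be amalgamated over every subset of `M` [of cardinality `≤ χ`]; for
`χ ≥ μ` the three conditions in square brackets may be omitted (`s = True`).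
-/

open FirstOrder FirstOrder.Language Cardinal Set

universe u

namespace Pool.Agent.AFX.H58

open Pool.Agent.AEC Pool.Agent.AFX

theorem uni2 (hf : FrsStmt.{u}) (ht : To3Stmt.{u}) (κ : Cardinal.{u}) : ∃ μ : Cardinal.{u},
    ∀ (L : FirstOrder.Language.{u, u}) (K : AEC L κ) (l χ : Cardinal.{u}),
      κ ≤ χ → ℵ₀ ≤ l → l ^ χ = l → K.Cat l →
      ∀ s : Prop, (s → μ ≤ χ) → ∀ M : K.Mod,
        (∀ N : K.Mod, K.Hom M N → (s ∨ #N.α < l) →
          ∃ (T : K.Mod) (i : K.Hom N T), ¬ Function.Surjective i ∧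
            ∀ (P : K.Mod) (g : K.Hom N P),
              ∃ (Z : K.Mod) (a : K.Hom T Z) (b : K.Hom P Z), ∀ x, a (i x) = b (g x)) →
        ∀ A : Set M.α, (s ∨ #A ≤ χ) →
          ∀ (ι : Type u) (B : ι → K.Mod) (f : ∀ i, K.Hom M (B i)),
            (s ∨ ∀ i, #(B i).α ≤ l) →
            ∃ (Z : K.Mod) (w : ∀ i, K.Hom (B i) Z), ∀ i j, ∀ x ∈ A, w i (f i x) = w j (f j x) := by
  obtain ⟨μ, hκμ, hμ⟩ := H94.lfm κ
  refine ⟨μ, fun L K l χ hκχ hl hlχ hcat s hs M hM A hA ι B f hB => ?_⟩
  by_cases h : s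
  · have hbig : μ ≤ χ := hs h
    have hlμ : l ^ μ = l := by
      have hl0 : l ≠ 0 := (Cardinal.aleph0_pos.trans_le hl).ne'
      refine le_antisymm ?_ ?_
      · calc l ^ μ ≤ l ^ χ := Cardinal.power_le_power_left hl0 hbig
          _ = l := hlχ
      · calc l = l ^ (1 : Cardinal.{u}) := (Cardinal.power_one l).symm
          _ ≤ l ^ μ := Cardinal.power_le_power_left hl0
            ((Cardinal.one_le_aleph0.trans K.aleph0_le).trans hκμ)
    obtain ⟨Z, w, hw⟩ := hμ L K ⟨l, hl, hlμ, hcat⟩ M ι B f (fun θ => by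
      obtain ⟨N, e, hN, he⟩ := ht L κ K M (max θ ℵ₀) (le_max_right _ _)
        (fun N k _ => hM N k (Or.inl h)) ι B f
      exact ⟨N, e, (le_max_left _ _).trans hN, he⟩)
    exact ⟨Z, w, fun i j x _ => hw i j x⟩
  · obtain ⟨N, e, hN, he⟩ := ht L κ K M l hl (fun N k hlt => hM N k (Or.inr hlt)) ι B f
    exact hf L κ K l χ hκχ hl hlχ hcat M N e hN A (hA.resolve_left h) ι B f
      (hB.resolve_left h) he

end Pool.Agent.AFX.H58
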